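import Pool.Agent.U222.GT.Fin

/-!
# The generalized Tate conjecture over finite fields, in all degrees and for all coniveaus, for the
products of arbitrary varieties with cyclic coverings of large prime degrees

Let `F_q` be a finite field of characteristic `c`, and let `X_1, …, X_r` be smooth projective models over
`F_q`, of any dimensions, of the cyclic coverings

  `w ^ N_i = ∏_k l_{i,k} (x) ^ a_{i,k}`   (`a_{i,k} ≥ 1`, `∑_k a_{i,k} = A_i ≥ 2`)

of the affine space of dimension `n_i`, branched along hyperplanes (any arrangement of hyperplanes which
together with the hyperplane at infinity have no common point), where the `N_i` are different prime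
numbers with `c ≡ 1` modulo `N_i`. Let `Z` be **any** smooth projective variety over `F_q`, of any
dimension. Let all Betti numbers of `Z` be at most `m`, and

  `N_i ≥ 4 A_i ^ 2 (m + 1) ^ 2` for all `i`.

Let `V = X_{i_1} × ⋯ × X_{i_s} × Z` for a set of indices.

**Theorem.** The generalized Tate conjecture is true for `V`, in all degrees `i` and for all coniveaus
`ν`, and over all finite extensions of `F_q`, if and only if it is true for `Z` (in all degrees and for
all coniveaus, over all finite extensions).

In particular it is true for `V` if all cohomology classes of `Z` are algebraic (a point, projective
spaces, Grassmannians, toric varieties, …), and so for all products of the `X_i`.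

**Number fields.** The theorem is about the subspaces `U` which are stable under a power of the
Frobenius `σ`, in the cohomology with the action of any group `Γ` which contains `σ`. If `F` is a number
field, `σ` a Frobenius element at one place of `F` with residue characteristic `c ≡ 1` modulo all `N_i`
where the `X_i` have good reductions `C_i`, and all classes of `Z` are algebraic, then the theorem gives
the generalized Tate conjecture over `F` for `V = X_{i_1} × ⋯ × X_{i_s} × Z`: every
subrepresentation `U` of the cohomology such that `U (ν)` is effective (it is enough to know it for the
one Frobenius `σ`) is contained in `N ^ ν`.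

The case `ν = i / 2` is the usual Tate conjecture. For `ν < i / 2` the generalized Tate conjecture asks
which subrepresentations of the cohomology have Tate twists which are effective, and this is a
question on the slopes of *all* eigenvalues, not only on coincidences with powers of `q`: the
cohomology of `V` has many subrepresentations `T_I ⊗ U` (`T_I` the product of the parts without
invariants of the cohomology of the `X_i`, `i ∈ I`) which are pure of high weight, and one has to show
that `T_I ⊗ U (ν)` is effective only if `U (ν)` is.

**The formal setting.** `W` is a Weil cohomology theory for the varieties over an algebraic closure of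
`F_q` (étale cohomology with coefficients in an algebraic closure `K` of `ℚ_ℓ`), `Γ` is the Galois group
(or the group generated by the Frobenius `σ`), a `GVar` is a variety with an action of `Γ` on its
cohomology, `GaloisClass` states the formal properties of the Galois action on the cohomology and on the
classes of algebraic cycles. `coniveau W A ν` is the `ν`-th step `N ^ ν` of the coniveau filtration on
the cohomology of `A`: the span of the images of all correspondences of degrees `≥ ν` from all
varieties `Y` to `A` (the image of a correspondence of degree `e` has a support of codimension at least
`e`, and the Gysin map of a morphism `Y → A`, `dim Y = dim A - ν`, is a correspondence of degree `ν`). A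
subspace `U` of the cohomology of degree `i` which is stable under `σ ^ m` is effective
(`IsEffective (σ ^ m) (q ^ m) ν U`) if `α / (q ^ m) ^ ν` is an algebraic integer for all eigenvalues `α`
of `σ ^ m` on `U`; for the cohomology of varieties this is the effectivity of `U (ν)` of weight
`i - 2 ν`, see the problem (the inverse is integral by the Riemann hypothesis:
the complex conjugate of `α / q ^ (m ν)` is `q ^ (m (i - 2 ν))` divided by it). `GeneralizedTate q A σ`
says that `U ≤ N ^ ν` for all degrees `i`, all `ν`, all `m ≥ 1` and all effective `U`. (The other
inclusion of the conjecture is known, see the problem, and the conjecture over `ℚ_ℓ` is equivalent to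
the one over `K`.) The `C i` are the equations of the coverings. The condition `base` of `IsSystem` says
that the eigenvalues of `σ` on the cohomology of `Z` are algebraic integers of degree at most `m`
over `ℚ`; they are so by the theorem of Deligne if the Betti numbers of `Z` are at most `m`.

**The proof.** Let `α_i` be eigenvalues on the parts `T_i` without invariants (`i ∈ I`) and `β` an
eigenvalue on the cohomology of `Z`. The main point is: if `(∏ α_i) β / q ^ ν` is an algebraic integer,
then so is `β / q ^ ν`. Let `φ` be an embedding of the algebraic numbers in an algebraic closure of
`ℚ_c`. The absolute values of the conjugates of the `α_i` are given by the exponents of the Gauss sums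
(theorem of Stickelberger): if a character `j` modulo `N_i` satisfies `A_i j < N_i` then
`|φ (α_i)| ≤ |q| ^ n_i` for the eigenvalues `α_i` which belong to `j`, and the absolute value for
the complex conjugate character is `≥ 1`. One needs an automorphism `ρ` of the field of algebraic numbers
which fixes `β` and moves all characters of the `α_i` simultaneously to such small ones. The
automorphisms which fix `β` give a subgroup `H` of index at most `m` of `∏ (ℤ/N_i)ˣ`, since `β` has
degree at most `m`. **Every coset of a subgroup of index at most `m` of `∏ (ℤ/N_i)ˣ` contains an
element all whose components are small** (`exists_small` of `U222/GT/Cos`), if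
`N_i ≥ 4 A_i ^ 2 (m + 1) ^ 2`: for the characters of `∏ (ℤ/N_i)ˣ` modulo `H` one has the bilinear
estimate `|∑_{x, y ∈ J} ψ (x + y)| ≤ |J| √N` for all intervals `J` (from the Jacobi sums), without
logarithms. Then `|φ (β)| ≤ |φ ρ (∏ α_i)| |φ (β)| ≤ |q| ^ ν`. The
rest of the proof is a decomposition of the generalized eigenspaces of `σ` on `V` (the cohomology of
`X_i` is generated by algebraic classes and `T_i`), and the compatibility of the coniveau filtration with
products and correspondences.

**Relation to other results.** The sibling hand-ins `LargePrimeCoverings` of helper222 (`MP_950c68_ag`,
`MP_af4e75_ag`, …) and `LargePrimeMotives` (`MP_3703a7_ag`) treat Tate classes, numerical equivalence and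
homomorphisms, where only coincidences of products of eigenvalues with powers of `q` matter, and are
obtained from separated conjugates of `β`. Here all coniveaus are treated, with a different arithmetic
argument (integrality, all cosets of the stabilizer of `β`). Purity and the trace formula for the
coverings and the decomposition of the cohomology of the `X_i` are hypotheses, as there.

helper222 (`Pool/Agent/U222/GT`); built on the library of the starting files: helper876 (`N876/TC`,
`N876/FL`), helper914 and others (`H914R2`, `W552`, `TH125/Gal`), helper485 (`H485R3/Kron`) and the
estimates of sums over hyperplane arrangements by Gauss sums (helper528 and others). The idea of large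
prime degrees is due to helper231.
-/

set_option autoImplicit false

open Finset Polynomial CategoryTheory AlgebraicGeometry

universe u

namespace Pool.Agent.Results.MP_8abef2_ag.AllConiveaus

open Pool.Agent.H914 Pool.Agent.H914.VarClass Pool.Agent.H914.VarClass.Obj
  Pool.Agent.H914.WeilCohomology Pool.Agent.H281R3.HT Pool.Agent.TH125.Gal
  Pool.Agent.U222.SL.Mot Pool.Agent.U222.SL.Geo Pool.Agent.U222.GT

/-- **The generalized Tate conjecture over finite fields for the products of arbitrary varieties with
cyclic coverings of large prime degrees.** -/
theorem result {k : Type u} [Field k] {𝒱 : VarClass k} {ops : CycleOps 𝒱}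
    {W : WeilCohomology.{u, 0} ops} [IsAlgClosed W.K] {Γ : Type} [Group Γ] {χ : Γ →* W.Kˣ}
    (c : ℕ) [Fact c.Prime] (κ : Type) [Field κ] [Fintype κ] [CharP κ c] {ι : Type} [Fintype ι]
    (C : ι → Covering κ) (f m : ℕ) (hf : Fintype.card κ = c ^ f) {G : Set (GVar W Γ)}
    {X : ι → GVar W Γ} {Z : GVar W Γ} {σ : Γ} {τ : W.K →+* ℂ}
    (h : IsSystem C c m χ G X Z σ τ) (L : List ι) (V : GVar W Γ) (hL : L.Nodup)
    (hV : IsProductOver G X Z L V) :
    -- the reduction to `Z`
    (GeneralizedTate (Fintype.card κ) V σ ↔ GeneralizedTate (Fintype.card κ) Z σ) ∧
      -- a special case
      (algSpan W Z.X = ⊤ → GeneralizedTate (Fintype.card κ) V σ) :=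
  gtc_main c κ C f m hf h hL hV

end Pool.Agent.Results.MP_8abef2_ag.AllConiveaus
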