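import Pool.Agent.U625.GP.Surf

/-!
# The generalized Tate conjecture for products of varieties with linearly disjoint Frobenius fields

Let `Z` and `X_1, ..., X_r` be smooth projective varieties over an algebraic closure of the field
with `p` elements. Suppose

* `HaveDisjointFields`: for all Frobenius eigenvalues `α` of `Z` and `β_i` of `X_i` the fields
  `ℚ(α ^ N)`, `ℚ(β_1 ^ N)`, ..., `ℚ(β_r ^ N)` are linearly disjoint over `ℚ`, for some `N > 0` (that is,
  their tensor product is a field);
* `HasIntegralMinimalSlopes`: for each Frobenius eigenvalue of `X_i` the smallest slope (over all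
  `p`-adic places) is an integer. This is the case if all slopes of `X_i` are integers, for example for
  ordinary varieties. There is no condition on the slopes of `Z`.

**Theorem.** (1) (Künneth formula for the Galois coniveau filtration.) Every Frobenius stable subspace
`V` of `H^i(Z × X_1 × ... × X_r)` with `V(c)` effective is contained in the span of the exterior
products of classes in Frobenius stable subspaces of the cohomology groups of the factors, in degrees
with sum `i`, whose twists by integers with sum `c` are effective.

(2) The generalized Tate conjecture holds for `Z × X_1 × ... × X_r` if and only if it holds for `Z` and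
for each `X_i`.

(3) Suppose that the `X_i` are surfaces with `H^1 = H^3 = 0` which satisfy the Tate conjecture for
divisors (for example ordinary K3 surfaces, where the Tate conjecture is a theorem). Then the
generalized Tate conjecture for `Z × X_1 × ... × X_r` is equivalent to the one for `Z`, for every
variety `Z`. In particular it holds, in all degrees and for all levels, for all products of
surfaces of this kind with disjoint fields; here one more surface may have arbitrary slopes (it may be
a K3 surface of any height).

(4) If all slopes of `Y` are integers, then `Y` has the property `HasIntegralMinimalSlopes`.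

The proof. Over an algebraic closure of the coefficient field the cohomology has a basis of exterior
products of generalised eigenvectors of Frobenius. Let `α`, `β` be eigenvalues on `Z` and on `X = X_r` and
let `u` be the smallest slope of `β`. As the fields are linearly disjoint, each `p`-adic
embedding of `ℚ(α)` can be extended to the compositum in such a way that the slope of `β` is `u`. So if
`α β` is divisible by `q ^ ν`, then all slopes of `α` are at least `ν - u`, that is `α` is divisible by
`q ^ (ν - u)`, and `β` is divisible by `q ^ u`. The integrality of `u` is necessary: for supersingular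
elliptic curves `Z` and `X` all eigenvalues are rational (up to roots of unity and a square root of
`p`), but `H^1(Z) ⊗ H^1(X)` twisted by one is effective, and not of the form in (1).

In the Lean statement `W` is a Weil cohomology theory with a system `Φ` of Frobenius endomorphisms, as
in the starting files (`N204/GT`); the Weil conjectures (Deligne) are a hypothesis. Over a finite field
both coniveau filtrations do not change under finite extensions of the field, and `V(c)` is
effective if and only if its Frobenius eigenvalues are algebraic integers.
-/

set_option autoImplicit false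

open CategoryTheory AlgebraicGeometry

universe u v

namespace Pool.Agent.Results.MP_8abef2_ag.DisjointProducts

open Pool.Agent.H914 Pool.Agent.H914.VarClass Pool.Agent.H914.VarClass.Obj
  Pool.Agent.H914.WeilCohomology Pool.Agent.W534 Pool.Agent.R940 Pool.Agent.N204.GT
  Pool.Agent.U625.GP

/-- The Künneth formula for the Galois coniveau filtration and the generalized Tate conjecture for
products of varieties with linearly disjoint Frobenius fields. -/
theorem result {k : Type u} [Field k] {𝒱 : VarClass k} {ops : CycleOps 𝒱}
    {W : WeilCohomology.{u, v} ops} {p : ℕ} [Fact p.Prime] (Φ : FrobSystem W p) (σ : W.K →+* ℂ)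
    (hW : ∀ Y, WeilConjectures Φ σ Y) (Z : 𝒱.Obj) (hZ : HasBigDivisor ops Z) (r : ℕ)
    (X : Fin r → 𝒱.Obj) (hX : ∀ i, HasBigDivisor ops (X i))
    (hs : ∀ i, HasIntegralMinimalSlopes Φ σ (X i)) (hd : HaveDisjointFields Φ σ Z X) :
    (∀ (i c : ℕ) (V : Subspace W (product Z r X)), IsEffective Φ i c V →
      Within V (spanOf W.K (IsDecomposable Φ Z r X i c))) ∧
    (GTC Φ (product Z r X) ↔ GTC Φ Z ∧ ∀ i, GTC Φ (X i)) ∧
    (CyclesHaveConiveau W → (∀ i, IsTateSurface Φ (X i)) →
      (GTC Φ (product Z r X) ↔ GTC Φ Z) ∧ (IsTateSurface Φ Z → GTC Φ (product Z r X))) ∧
    (∀ Y, IsSlopeDenominator Φ σ Y 1 → HasIntegralMinimalSlopes Φ σ Y) := by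
  have h1 := gtc_product hW Z (HasPt.of_big hZ) r X (fun i => HasPt.of_big (hX i)) hs hd
  have h2 : CyclesHaveConiveau W → (∀ i, IsTateSurface Φ (X i)) →
      (GTC Φ (product Z r X) ↔ GTC Φ Z) := by
    intro hcyc hT
    rw [h1]
    exact ⟨fun h => h.1, fun h => ⟨h, fun i => gtc_surface (hW _) hcyc (hT i)⟩⟩
  refine ⟨fun i c V hV => decomp hW Z r X (fun i => HasPt.of_big (hX i)) hs hd i c V hV, h1,
    fun hcyc hT => ⟨h2 hcyc hT, fun hZT => (h2 hcyc hT).2 (gtc_surface (hW _) hcyc hZT)⟩, ?_⟩
  rintro Y hY α ⟨i, hα⟩
  obtain ⟨P, hP⟩ := (hW Y).2 i
  have hmon : P.Monic := by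
    refine Polynomial.monic_of_injective (f := Int.castRingHom ℂ) Int.cast_injective ?_
    rw [← hP, frobPoly_eq]
    exact (LinearMap.charpoly_monic _).map σ
  have h0 : Polynomial.aeval α P = 0 := by
    rw [hP, Polynomial.IsRoot.def, Polynomial.eval_map] at hα
    rw [Polynomial.aeval_def]
    exact hα
  refine exists_min ⟨P, hmon, h0⟩ (Φ.e_pos Y) fun y hy => ?_
  obtain ⟨m, hm⟩ := hY.2 i P hP y (aeval_of_minpoly h0 hy)
  exact ⟨m, by rwa [pow_one] at hm⟩

end Pool.Agent.Results.MP_8abef2_ag.DisjointProducts
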