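import Pool.Agent.U625.KP.Sharp

/-!
# The generalized Tate conjecture for powers of ordinary varieties of K3 type

Let `X` be a smooth projective variety over an algebraic closure of the field with `p` elements, of
`K3` type and ordinary (`IsOrdinaryOfK3Type`): `X` has a model over the field with `q` elements whose
Frobenius eigenvalues are of Tate type, except for the roots of an irreducible polynomial `Q` on
`H^{2h}(X)`, and one of the `p`-adic roots of `Q` has the slope `h - m`, its dual the slope `h + m`, all
others the slope `h`. Examples are ordinary K3 surfaces (`h = m = 1`, and `deg Q = 22 - ρ` is at most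
22) and cubic fourfolds with ordinary `H^4` (`h = 2`, `m = 1`, `deg Q` at most 22). Let
`d = factors Q = max (2, deg Q / 2)`, so `d` is at most 11, and at most 10 for K3 surfaces (as
`2 ≤ ρ`).

**Theorem.** (1) The Galois coniveau filtrations of all powers of `X` are generated by those of `X`,
`X ^ 2`, ..., `X ^ d`: every Frobenius stable subspace `V` of `H^i(X ^ N)`, `d < N`, with `V(c)`
effective is contained in the span of the exterior products of classes in such subspaces for smaller
powers. If `Q` occurs and `m > 0`, then this is false for each `N ≤ d`: new effective twists occur in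
`X ^ N` if and only if `N ≤ d`.

(2) The generalized Tate conjecture for `X ^ N` is equivalent to the one for
`X ^ (min (N, d))`; so it holds for all powers of `X` if it holds for `X ^ d`.

(3) If the splitting fields of the polynomials `Q` of `X_1, ..., X_r` and the fields of the Frobenius
eigenvalues of a variety `Z` are linearly disjoint, then the generalized Tate conjecture holds for
`Z × X_1 ^ N_1 × ... × X_r ^ N_r` if and only if it holds for `Z` and all `X_i ^ (min (N_i, d_i))`.

There is no condition on the slopes of `Z`. The number of factors in the starting result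
`BoundedGeneration`, which applies to all varieties with Frobenius eigenvalues of Weil type, is
astronomically large.

The proof. Let `L` be an algebraic closure of the coefficient field; over `L` the cohomology of `X ^ N`
has a basis of exterior products of generalised eigenvectors of Frobenius. Consider such a product
with the eigenvalues `α_1, ..., α_N` and let `ν` be the minimum of the slopes of `α_1 ⋯ α_N`. The minimal
slope of a root of `Q` is `h - m`, and for `α_j` it is attained exactly at the `p`-adic embeddings which
map `α_j` to a fixed root `y₀` of `Q`. So the slopes of different roots are never minimal at the same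
embedding. If `α_j` is of Tate type, then it splits off. If `α_i α_j = q ^ {2h}` for some `i, j`, then this
pair splits off. If neither occurs and `d < N`, then two of the `α_j` agree, as `Q` has only `deg Q / 2`
pairs of roots `α, q ^ {2h} / α`, and after splitting off a suitable factor the minimal slopes of both
parts add up. For the converse one takes the product of the eigenvectors of `N` roots of `Q`, one of
each pair, and for `N = 2` the product of the eigenvectors of the roots of one pair.
-/

set_option autoImplicit false

open CategoryTheory AlgebraicGeometry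

universe u v

namespace Pool.Agent.Results.MP_8abef2_ag.OrdinaryK3Powers

open Pool.Agent.H914 Pool.Agent.H914.VarClass Pool.Agent.H914.VarClass.Obj
  Pool.Agent.H914.WeilCohomology Pool.Agent.W534 Pool.Agent.R940 Pool.Agent.N204.GT
  Pool.Agent.U625.GP Pool.Agent.U625.KP
open Pool.Agent.Y163 (pw)

/-- The Galois coniveau filtration and the generalized Tate conjecture for powers of ordinary
varieties of K3 type. -/
theorem result {k : Type u} [Field k] {𝒱 : VarClass k} {ops : CycleOps 𝒱}
    {W : WeilCohomology.{u, v} ops} {p : ℕ} [Fact p.Prime] (Φ : FrobSystem W p) (σ : W.K →+* ℂ)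
    (hW : ∀ Y, WeilConjectures Φ σ Y) (Z : 𝒱.Obj) (hZ : HasBigDivisor ops Z) (r : ℕ)
    (X : Fin r → 𝒱.Obj) (hX : ∀ i, HasBigDivisor ops (X i)) (h m : Fin r → ℕ)
    (Q : Fin r → Polynomial ℚ) (hK : ∀ i, IsOrdinaryOfK3Type Φ σ (X i) (h i) (m i) (Q i)) :
    (∀ i n, factors (Q i) < n + 1 → NoNewEffectiveOnPower Φ (X i) n) ∧
    (∀ i, 0 < m i → (∃ β : ℂ, (frobPoly Φ σ (X i) 1 (2 * h i)).IsRoot β ∧
      Polynomial.aeval β (Q i) = 0) →
        ∀ n, NoNewEffectiveOnPower Φ (X i) n ↔ factors (Q i) < n + 1) ∧
    (∀ i n, GTC Φ (pw (X i) n) ↔ GTC Φ (pw (X i) (min n (factors (Q i) - 1)))) ∧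
    (DisjointSplittingFields Φ σ Z Q → ∀ n : Fin r → ℕ,
      (GTC Φ (product Z r fun i => pw (X i) (n i)) ↔
        GTC Φ Z ∧ ∀ i, GTC Φ (pw (X i) (min (n i) (factors (Q i) - 1))))) := by
  refine ⟨fun i n hn => noNew (hW _) (hK i) hn, fun i hm hocc n => noNew_iff (hW _) (hK i) hm hocc,
    fun i n => gtc_pw_iff (hW _) (hK i) (hX i) n, fun hd n => ?_⟩
  rw [gtc_product hW Z (HasPt.of_big hZ) r (fun i => pw (X i) (n i))
    (fun i => hasPt_pw (HasPt.of_big (hX i)) _) (fun i => minSlopes_pw hW (hK i) _)
    (disjoint_pw hK hd n)]
  refine and_congr_right fun _ => forall_congr' fun i => gtc_pw_iff (hW _) (hK i) (hX i) (n i)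

end Pool.Agent.Results.MP_8abef2_ag.OrdinaryK3Powers
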