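import Pool.Agent.U625.CP.Fin

/-!
# The generalized Tate conjecture up to coniveau `c` for the powers of a variety with one small slope

Let `X` be a smooth projective variety over an algebraic closure of the field with `p` elements, with a
model over the field with `q` elements. We assume that `X` has one small slope (`HasOneSmallSlope`): the
Frobenius eigenvalues in the positive degrees have slopes at least `1/2`, or all but one of them have
slopes at least `1` and the exceptional one, which may be a multiple eigenvalue, is a `p`-adic unit. By
the theorem of Mazur and Ogus this holds if `X` is the reduction of a variety with, up to scalars, one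
holomorphic form of positive degree, `h^(0,e) = 1` and `h^(0,i) = 0` for `i ≥ 1`, `i ≠ e`, with torsion
free crystalline cohomology and degenerate Hodge spectral sequence: all K3 surfaces, of any height,
Calabi-Yau varieties, surfaces with `p_g = 1` and `q = 0`; and for elliptic curves.

**Theorem.** Let `N + 1 ≥ 2 c`.

(1) For all `n ≥ N` and all `i` the subspaces `V` of `H^i(X ^ (n + 1))` which are stable under Frobenius,
with `V(c)` effective, come from `N + 1` factors: they are contained in the span of the products
`f^* y ∪ b`, where `f` is the projection to `N + 1` of the factors, `y` lies in such a subspace (with the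
same `c`) of `H^j(X ^ (N + 1))` and `b` is any class. This is unconditional.

(2) The generalized Tate conjecture up to coniveau `c` for `X ^ (N + 1)`, for example for `X ^ (2 c)`,
implies the one for all powers of `X`, and for all varieties which are dominated by them.

So for coniveau one, the analogue of Grothendieck's question for varieties without holomorphic
forms, one only needs the variety `X × X`. For the classes of degree `2 c` (usual Tate conjecture) only
`2 c` factors can contribute for trivial reasons; here the degree is arbitrary. The starting result
`BoundedGeneration` holds for all varieties and all coniveaus at once, with an astronomically large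
number of factors.

The proof. Over an algebraic closure of the coefficient field the cohomology of the power has a basis of
products of generalised eigenvectors of Frobenius on `X`. Consider such a product, with the eigenvalues
`α_1, ..., α_n`, such that `q ^ c` divides `α_1 ⋯ α_n`, and a minimal set `S` of indices such that `q ^ c`
divides the product of the `α_j`, `j ∈ S`. Assume that `S` has more than `2 c` elements. For each
`z ∈ S` there is a `p`-adic place `v_z` at which the product over `S - {z}` has a slope smaller than
`c`. So the first alternative of the hypothesis is impossible, and in the second one at least `#S - c`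
of the `α_j`, `j ∈ S - {z}`, are equal to the eigenvalue which is a unit at `v_z`. As `#S > 2 c`, this
is more than one half of `S`, so this eigenvalue `α` does not depend on `z`. Take a `z` with
`α_z = α`. Then `α_z` is a unit at `v_z`, and omitting it does not change the slope, a contradiction.
-/

set_option autoImplicit false

open CategoryTheory AlgebraicGeometry

universe u v

namespace Pool.Agent.Results.MP_8abef2_ag.TwiceTheConiveau

open Pool.Agent.H914 Pool.Agent.H914.VarClass Pool.Agent.H914.VarClass.Obj
  Pool.Agent.H914.WeilCohomology Pool.Agent.W534 Pool.Agent.R940 Pool.Agent.N204.GT
  Pool.Agent.U625.CP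
open Pool.Agent.Y163 (pw)

/-- Effective twists by `c` on the powers of a variety with one small slope come from `2 c` factors, and
the generalized Tate conjecture up to coniveau `c` for all powers, and all varieties dominated by them,
follows from that for `X ^ (2 c)`. -/
theorem result {k : Type u} [Field k] {𝒱 : VarClass k} {ops : CycleOps 𝒱}
    {W : WeilCohomology.{u, v} ops} {p : ℕ} [Fact p.Prime] (Φ : FrobSystem W p) (σ : W.K →+* ℂ)
    (X : 𝒱.Obj) (hW : WeilConjectures Φ σ X) (hX : HasOneSmallSlope Φ σ X) (c N : ℕ)
    (hN : 2 * c ≤ N + 1) :
    (∀ n, N ≤ n → ∀ (i : ℕ) (V : Subspace W (pw X n)), IsEffective Φ i c V →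
      Within V (spanOf W.K (IsFromPower Φ X n N c))) ∧
    (GTCUpTo Φ c (pw X N) → ∀ n, N ≤ n → GTCUpTo Φ c (pw X n)) ∧
    (CyclesHaveConiveau W → HasBigDivisor ops X → GTCUpTo Φ c (pw X N) →
      ∀ n, GTCUpTo Φ c (pw X n) ∧ ∀ Y, IsDominatedBy W (pw X n) Y → GTCUpTo Φ c Y) :=
  ⟨fun _ hn _ _ hV => fromPower hW hX hN hn hV, fun h _ hn => gtc_le hW hX hN hn h,
    fun hcyc hb h n => ⟨gtc_all hW hX hcyc hb hN h n, fun _ hY =>
      gtc_dom hcyc hY (gtc_all hW hX hcyc hb hN h n)⟩⟩

end Pool.Agent.Results.MP_8abef2_ag.TwiceTheConiveau
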